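import Mathlib
import Pool.Agent.Lib.MP_ceb3e8_nt.Core

set_option autoImplicit false

open Polynomial

namespace Pool.Agent.Results.MP_ceb3e8_nt.InsepCounterexample

open Pool.Agent.Lib.MP_ceb3e8_nt

/-- For every prime `p` and every field `K` of characteristic `p` containing an element `s`
transcendental over `F_p`, put `t = s ^ p`. There are Drinfeld modules of generic characteristic
over `K` (so `t` acts with derivative `s ^ p`) of ranks `p` and `1`, and a finitely generated
submodule of `K ^ 2`, whose intersection with the curve `y = x ^ p` is infinite, while every coset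
inside this curve of a subgroup of `K ^ 2` that is stable under the action of some nonconstant
polynomial `f` in `F_p[t]` is finite. -/
theorem result (p : ℕ) (hp : p.Prime) (K : Type*) [Field K] [Algebra (ZMod p) K]
    (s : K) (hs : Transcendental (ZMod p) s) :
    ∃ (c : Fin 2 → ℕ → K) (Ψ : Module.End (ZMod p) (Fin 2 → K)) (m : ℕ) (γ : Fin m → Fin 2 → K),
      (∀ i, c i 0 = s ^ p) ∧ (∀ i, c i ((![p, 1] : Fin 2 → ℕ) i) ≠ 0) ∧
      (∀ (v : Fin 2 → K) (i : Fin 2),
        Ψ v i = ∑ j ∈ Finset.range ((![p, 1] : Fin 2 → ℕ) i + 1), c i j * v i ^ (p ^ j)) ∧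
      {x : Fin 2 → K | (∃ a : Fin m → (ZMod p)[X], x = ∑ k, (aeval Ψ (a k)) (γ k)) ∧
        x 1 = x 0 ^ p}.Infinite ∧
      ∀ f : (ZMod p)[X], 0 < f.natDegree →
        ∀ (δ : Fin 2 → K) (H : AddSubgroup (Fin 2 → K)),
          (∀ x ∈ H, (aeval Ψ f) x ∈ H) → (∀ x ∈ H, (δ + x) 1 = (δ + x) 0 ^ p) →
            (H : Set (Fin 2 → K)).Finite := by
  have hfact : Fact (Nat.Prime p) := ⟨hp⟩
  refine ⟨coef p s, Psi p s, p + 1, gen p s, ?_, ?_, ?_, ?_, ?_⟩
  · intro i
    fin_cases i
    · exact e_zero (p := p) s p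
    · rfl
  · intro i
    fin_cases i
    · show e p s p p ≠ 0
      rw [e_diag (p := p)]
      exact one_ne_zero
    · show (if (1 : ℕ) = 0 then s ^ p else 1) ≠ 0
      simp
  · intro v i
    exact Psi_formula s v i
  · have h := infinite_inter (p := p) s hs
    refine h.mono ?_
    rintro x ⟨⟨a, ha⟩, hx⟩
    exact ⟨⟨a, ha.symm⟩, hx⟩
  · intro f hf δ H hH hV
    exact finite_coset (p := p) s f hf δ H hH hV

end Pool.Agent.Results.MP_ceb3e8_nt.InsepCounterexample
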